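import Pool.Agent.KS6_29.NC.Norm4

/-!
# Norming of inclusions graded by normalizers, in particular of Fell bundle C*-algebras

Let `A ⊆ B` be a unital inclusion of C*-algebras with a faithful conditional expectation `E`.

1. If the inclusion has a unique pseudo-expectation, then every normalizer `x` of `A` in `B`
   (`x A x* ⊆ A`, `x* A x ⊆ A`) with `E x = 0` satisfies Kishimoto's condition: in every nonzero
   local algebra `{d : e d = d = d e}` of `A` there are positive elements `d` of norm one with
   `‖d x d‖` arbitrarily small.
2. If `B` is the closed sum of `A`-bimodules `M s` with `M s (M s)* ⊆ A`, `(M s)* M s ⊆ A` and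
   `E ((M s)* M t) = 0` for `s ≠ t`, and the inclusion has a unique pseudo-expectation, then `A`
   norms `B`.
3. In particular, if the inclusion of the unit fibre of a Fell bundle over a discrete group into its
   reduced cross-sectional C*-algebra has a unique pseudo-expectation, then it is norming
   (this includes twisted and partial crossed products).
4. In particular this holds for the reduced crossed products of discrete groups, which is Q1.

The new point in 1 is that, in an irreducible representation of `A`, the compressions of two
completely positive extensions to `B` are proportional on every normalizer `x`; for crossed products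
`x = a u_g` this is Schur's lemma for the automorphism of `g`, for a general normalizer there is no
automorphism. It is proved from the identity
`Θ₁(x) π(b) Θ₂(x)* π(a) π(x e x*) = π(x b x*) π(a) Θ₁(x) π(e) Θ₂(x)*`.
In 2 the unitaries of the crossed product are replaced by locally almost isometric elements of the
bimodules.
-/

set_option autoImplicit false

open scoped CStarAlgebra ComplexOrder

namespace Pool.Agent.Results.MP_dbaee1_an.FellBundles

universe u v w

open Pool.Agent.W661.Nrm Pool.Agent.KS6_29.NC

/-- **Unique pseudo-expectations, Kishimoto's condition and norming for inclusions graded by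
normalizers.** -/
theorem result {A I : Type u} {B : Type v} [CStarAlgebra A] [PartialOrder A] [StarOrderedRing A]
    [CStarAlgebra I] [PartialOrder I] [StarOrderedRing I] [CStarAlgebra B] [PartialOrder B]
    [StarOrderedRing B] (ι : A →⋆ₐ[ℂ] B) (E : B →L[ℂ] A) (j : A →⋆ₐ[ℂ] I)
    (hj : IsInjectiveEnvelope j) (hunique : UniquePseudo ι j) :
    -- (1) Kishimoto's condition for all normalizers with vanishing expectation
    (IsFaithfulCondExp ι E → ∀ x : B, IsNormalizer ι x → E x = 0 → Kishimoto ι x) ∧
    -- (2) norming for orthogonally graded inclusions
    (∀ (J : Type w) (M : J → Submodule ℂ B), IsOrthGraded ι M E → Norms ι) ∧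
    -- (3) norming for reduced C*-algebras of Fell bundles over discrete groups
    (∀ (G : Type w) [Group G] (M : G → Submodule ℂ B), IsReducedFell ι M E → Norms ι) ∧
    -- (4) norming for reduced crossed products (Q1)
    (∀ (G : Type w) [Group G] (α : G →* (A ≃⋆ₐ[ℂ] A)) (u : G →* unitary B),
      IsReducedCrossedProduct α ι u E → Norms ι) := by
  refine ⟨?_, ?_, ?_, ?_⟩
  · intro hE x hx hEx e he ⟨d0, h1, h2, h3⟩ ε hε
    obtain ⟨d, hd, hd0, hdn, hds⟩ := KN_of_unique hE j hj.inj hj.injective
      (fun _ _ k1 k2 => hunique.unique k1 k2) hx hEx e ⟨he, d0, ⟨h1, h2⟩, h3⟩ ε hε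
    exact ⟨d, hd.1, hd.2, hd0, hdn, hds⟩
  · intro J M h
    exact norms_of_unique' h j hj hunique
  · intro G _ M h
    exact norms_of_unique' h.orthGraded j hj hunique
  · intro G _ α u h
    exact norms_of_unique' (crossedProduct_fell h).orthGraded j hj hunique

end Pool.Agent.Results.MP_dbaee1_an.FellBundles
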